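import Pool.Agent.H79.CT.Defs

open CategoryTheory MonoidalCategory CartesianMonoidalCategory

universe u v w

namespace Pool.Agent.H79.CT

variable {C : Type u} [Category.{v} C] [CartesianMonoidalCategory C] {dim : C → ℤ}

namespace Level

variable (L : Level.{u, v, w} dim)

theorem deg_push {X Y : C} (f : X ⟶ Y) (x : L.R X) : L.deg Y (L.push f x) = L.deg X x := by
  simp only [deg, LinearMap.comp_apply, ← L.push_comp, comp_toUnit]

theorem push_iso {X Y : C} (f : X ⟶ Y) (g : Y ⟶ X) (h1 : f ≫ g = 𝟙 X) (h2 : g ≫ f = 𝟙 Y)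
    (x : L.R X) : L.push f x = L.pull g x := by
  have h3 : L.pull f (L.pull g x) = x := by rw [← L.pull_comp, h1, L.pull_id]
  have h4 : IsIso f := ⟨g, h1, h2⟩
  conv_lhs => rw [← h3, ← mul_one (L.pull f (L.pull g x))]
  rw [L.projection, L.push_one f h4, mul_one]

theorem algebraMap_deg (X : C) (x : L.R X) :
    algebraMap ℚ _ (L.deg X x) = L.push (toUnit X) x := by
  have := (LinearEquiv.ofBijective (Algebra.linearMap ℚ (L.R (𝟙_ C))) L.point).apply_symm_apply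
    (L.push (toUnit X) x)
  exact this

theorem push_snd_pull_fst (X Y : C) (x : L.R X) :
    L.push (snd X Y) (L.pull (fst X Y) x) = algebraMap ℚ _ (L.deg X x) := by
  have h1 := L.base_change (toUnit X) Y x
  have h2 : snd X Y = toUnit X ▷ Y ≫ snd (𝟙_ C) Y := by simp
  have h3 : IsIso (snd (𝟙_ C) Y) := by
    rw [← leftUnitor_hom]; infer_instance
  rw [h2, L.push_comp, ← h1, ← L.algebraMap_deg, AlgHom.commutes, Algebra.algebraMap_eq_smul_one,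
    map_smul, L.push_one _ h3, Algebra.algebraMap_eq_smul_one]

theorem push_swap (X Y : C) (u : L.R (X ⊗ Y)) :
    L.push (lift (snd X Y) (fst X Y)) u = L.pull (lift (snd Y X) (fst Y X)) u := by
  apply L.push_iso
  · ext <;> simp
  · ext <;> simp

theorem push_fst_pull_snd (X Y : C) (y : L.R Y) :
    L.push (fst X Y) (L.pull (snd X Y) y) = algebraMap ℚ _ (L.deg Y y) := by
  have h1 : fst X Y = lift (snd X Y) (fst X Y) ≫ snd Y X := by simp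
  rw [h1, L.push_comp, L.push_swap, ← L.pull_comp]
  have h2 : lift (snd Y X) (fst Y X) ≫ snd X Y = fst Y X := by simp
  rw [h2, L.push_snd_pull_fst]

/-- base change along a second projection -/
theorem base_change_snd {X' X : C} (f : X' ⟶ X) (Y : C) (x : L.R X') :
    L.pull (snd Y X) (L.push f x) = L.push (Y ◁ f) (L.pull (snd Y X') x) := by
  have h1 : snd Y X = lift (snd Y X) (fst Y X) ≫ fst X Y := by simp
  have h2 : snd Y X' = lift (snd Y X') (fst Y X') ≫ fst X' Y := by simp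
  rw [h1, L.pull_comp, L.base_change, ← L.push_swap, ← L.push_comp, h2, L.pull_comp, ← L.push_swap,
    ← L.push_comp]
  congr 1
  congr 1
  ext <;> simp

theorem act_comp {X Y Z : C} (u : L.R (X ⊗ Y)) (v : L.R (Y ⊗ Z)) (x : L.R X) :
    L.act (L.comp u v) x = L.act v (L.act u x) := by
  have h1 : lift (fst (X ⊗ Y) Z ≫ snd X Y) (snd (X ⊗ Y) Z) = snd X Y ▷ Z := by ext <;> simp
  have e1 : L.act (L.comp u v) x = L.push (snd (X ⊗ Y) Z) (L.pull (fst (X ⊗ Y) Z ≫ fst X Y) x *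
      (L.pull (fst (X ⊗ Y) Z) u * L.pull (snd X Y ▷ Z) v)) := by
    rw [act, comp, ← L.projection, ← L.push_comp, ← L.pull_comp, h1]
    congr 2
    · simp
    · simp
  have e2 : L.act v (L.act u x) = L.push (snd (X ⊗ Y) Z) (L.pull (fst (X ⊗ Y) Z ≫ fst X Y) x *
      (L.pull (fst (X ⊗ Y) Z) u * L.pull (snd X Y ▷ Z) v)) := by
    rw [act, act, L.base_change, mul_comm, ← L.projection, ← L.push_comp, map_mul (L.pull _),
      L.pull_comp]
    congr 1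
    · simp
    · ring
  rw [e1, e2]

theorem push_of_iso {W X Y : C} (a : W ⟶ X) (b : X ⟶ W) (h1 : a ≫ b = 𝟙 W) (h2 : b ≫ a = 𝟙 X)
    (g : X ⟶ Y) (x : L.R X) : L.push g x = L.push (a ≫ g) (L.pull a x) := by
  rw [L.push_comp, L.push_iso a b h1 h2, ← L.pull_comp, h2, L.pull_id]

theorem deg_of_iso {W X : C} (a : W ⟶ X) (b : X ⟶ W) (h1 : a ≫ b = 𝟙 W) (h2 : b ≫ a = 𝟙 X)
    (x : L.R X) : L.deg X x = L.deg W (L.pull a x) := by
  rw [← L.push_iso b a h2 h1, L.deg_push]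

theorem comp_eq {X Y Z : C} (u : L.R (X ⊗ Y)) (v : L.R (Y ⊗ Z)) :
    L.comp u v = L.push (fst X Y ▷ Z) (L.pull (fst (X ⊗ Y) Z) u * L.pull (snd X Y ▷ Z) v) := by
  have h1 : lift (fst (X ⊗ Y) Z ≫ snd X Y) (snd (X ⊗ Y) Z) = snd X Y ▷ Z := by ext <;> simp
  have h2 : lift (fst (X ⊗ Y) Z ≫ fst X Y) (snd (X ⊗ Y) Z) = fst X Y ▷ Z := by ext <;> simp
  rw [comp, h1, h2]

theorem comp_assoc {W X Y Z : C} (u : L.R (W ⊗ X)) (v : L.R (X ⊗ Y)) (w : L.R (Y ⊗ Z)) :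
    L.comp (L.comp u v) w = L.comp u (L.comp v w) := by
  have e1 : L.comp (L.comp u v) w = L.push ((fst W X ▷ Y) ▷ Z ≫ fst W Y ▷ Z)
      (L.pull (fst _ Z ≫ fst _ Y) u * L.pull (fst _ Z ≫ snd W X ▷ Y) v *
        L.pull ((fst W X ▷ Y) ▷ Z ≫ snd W Y ▷ Z) w) := by
    rw [L.comp_eq, L.comp_eq, L.base_change, mul_comm, ← L.projection, ← L.push_comp,
      map_mul (L.pull _), ← L.pull_comp, ← L.pull_comp, ← L.pull_comp, mul_comm]
  have e2 : L.comp u (L.comp v w) = L.push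
        (lift (fst W ((X ⊗ Y) ⊗ Z)) (snd W ((X ⊗ Y) ⊗ Z) ≫ snd (X ⊗ Y) Z))
      (L.pull (lift (fst W ((X ⊗ Y) ⊗ Z)) (snd W ((X ⊗ Y) ⊗ Z) ≫ fst (X ⊗ Y) Z ≫ fst X Y)) u *
        (L.pull (snd W ((X ⊗ Y) ⊗ Z) ≫ fst (X ⊗ Y) Z) v *
        L.pull (snd W ((X ⊗ Y) ⊗ Z) ≫ snd X Y ▷ Z) w)) := by
    have h1 : snd W X ▷ Z = (α_ W X Z).hom ≫ snd W (X ⊗ Z) := by ext <;> simp
    have h2 : L.pull (snd W X ▷ Z) (L.comp v w) =
        L.push (W ◁ (fst X Y ▷ Z) ≫ (α_ W X Z).inv) (L.pull (snd W ((X ⊗ Y) ⊗ Z) ≫ fst (X ⊗ Y) Z) v *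
        L.pull (snd W ((X ⊗ Y) ⊗ Z) ≫ snd X Y ▷ Z) w) := by
      rw [L.comp_eq v w, h1, L.pull_comp, L.base_change_snd, L.push_comp,
        L.push_iso (α_ W X Z).inv (α_ W X Z).hom (by simp) (by simp), map_mul (L.pull _),
        ← L.pull_comp, ← L.pull_comp]
    rw [L.comp_eq u, h2, ← L.projection, ← L.push_comp, ← L.pull_comp]
    have a1 : (W ◁ (fst X Y ▷ Z) ≫ (α_ W X Z).inv) ≫ fst W X ▷ Z =
        lift (fst W ((X ⊗ Y) ⊗ Z)) (snd W ((X ⊗ Y) ⊗ Z) ≫ snd (X ⊗ Y) Z) := by ext <;> simp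
    have a2 : (W ◁ (fst X Y ▷ Z) ≫ (α_ W X Z).inv) ≫ fst (W ⊗ X) Z =
        lift (fst W ((X ⊗ Y) ⊗ Z)) (snd W ((X ⊗ Y) ⊗ Z) ≫ fst (X ⊗ Y) Z ≫ fst X Y) := by
      ext <;> simp
    rw [a1, a2]
  rw [e1, e2, L.push_of_iso (lift (fst _ Z ≫ fst _ Y ≫ fst W X)
      (lift (lift (fst _ Z ≫ fst _ Y ≫ snd W X) (fst _ Z ≫ snd _ Y)) (snd _ Z)))
      (lift (lift (lift (fst W _) (snd W _ ≫ fst _ Z ≫ fst X Y)) (snd W _ ≫ fst _ Z ≫ snd X Y))
        (snd W _ ≫ snd _ Z)) (by ext <;> simp) (by ext <;> simp) (lift _ _)]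
  set χ := lift (fst _ Z ≫ fst _ Y ≫ fst W X)
      (lift (lift (fst _ Z ≫ fst _ Y ≫ snd W X) (fst _ Z ≫ snd _ Y)) (snd _ Z)) with hχ
  rw [map_mul (L.pull _), map_mul (L.pull _), ← L.pull_comp, ← L.pull_comp, ← L.pull_comp, mul_assoc]
  have b1 : χ ≫ lift (fst W ((X ⊗ Y) ⊗ Z)) (snd W ((X ⊗ Y) ⊗ Z) ≫ snd (X ⊗ Y) Z) =
      (fst W X ▷ Y) ▷ Z ≫ fst W Y ▷ Z := by ext <;> simp [hχ]
  have b2 : χ ≫ lift (fst W ((X ⊗ Y) ⊗ Z)) (snd W ((X ⊗ Y) ⊗ Z) ≫ fst (X ⊗ Y) Z ≫ fst X Y) =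
      fst _ Z ≫ fst _ Y := by ext <;> simp [hχ]
  have b3 : χ ≫ snd W ((X ⊗ Y) ⊗ Z) ≫ fst (X ⊗ Y) Z = fst _ Z ≫ snd W X ▷ Y := by
    ext <;> simp [hχ]
  have b4 : χ ≫ snd W ((X ⊗ Y) ⊗ Z) ≫ snd X Y ▷ Z = (fst W X ▷ Y) ▷ Z ≫ snd W Y ▷ Z := by
    ext <;> simp [hχ]
  rw [b1, b2, b3, b4]

theorem diag_comp {X Y : C} (u : L.R (X ⊗ Y)) : L.comp (L.diag X) u = u := by
  rw [L.comp_eq, diag, L.base_change, map_one, mul_comm, ← L.projection, ← L.push_comp,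
    ← L.pull_comp, mul_one]
  have a1 : lift (𝟙 X) (𝟙 X) ▷ Y ≫ fst X X ▷ Y = 𝟙 _ := by ext <;> simp
  have a2 : lift (𝟙 X) (𝟙 X) ▷ Y ≫ snd X X ▷ Y = 𝟙 _ := by ext <;> simp
  rw [a1, a2, L.push_id, L.pull_id]

theorem tr_tr {X Y : C} (u : L.R (X ⊗ Y)) : L.tr (L.tr u) = u := by
  rw [tr, tr, ← L.pull_comp]
  have : lift (snd X Y) (fst X Y) ≫ lift (snd Y X) (fst Y X) = 𝟙 _ := by ext <;> simp
  rw [this, L.pull_id]

theorem tr_comp {X Y Z : C} (u : L.R (X ⊗ Y)) (v : L.R (Y ⊗ Z)) :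
    L.tr (L.comp u v) = L.comp (L.tr v) (L.tr u) := by
  set χ := lift (lift (snd (X ⊗ Y) Z) (fst (X ⊗ Y) Z ≫ snd X Y)) (fst (X ⊗ Y) Z ≫ fst X Y) with hχ
  set χ' := lift (lift (snd (Z ⊗ Y) X) (fst (Z ⊗ Y) X ≫ snd Z Y)) (fst (Z ⊗ Y) X ≫ fst Z Y) with hχ'
  have h1 : χ ≫ χ' = 𝟙 _ := by ext <;> simp [hχ, hχ']
  have h2 : χ' ≫ χ = 𝟙 _ := by ext <;> simp [hχ, hχ']
  rw [L.comp_eq (L.tr v), L.push_of_iso χ χ' h1 h2, tr, ← L.push_swap, L.comp_eq u, ← L.push_comp,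
    map_mul (L.pull _), tr, tr, ← L.pull_comp, ← L.pull_comp, ← L.pull_comp, ← L.pull_comp, mul_comm]
  have a1 : χ ≫ fst Z Y ▷ X = fst X Y ▷ Z ≫ lift (snd X Z) (fst X Z) := by
    ext <;> simp [hχ]
  have a2 : (χ ≫ fst (Z ⊗ Y) X) ≫ lift (snd Z Y) (fst Z Y) = snd X Y ▷ Z := by
    ext <;> simp [hχ]
  have a3 : (χ ≫ snd Z Y ▷ X) ≫ lift (snd Y X) (fst Y X) = fst (X ⊗ Y) Z := by
    ext <;> simp [hχ]
  rw [a1, a2, a3]

theorem tr_diag (X : C) : L.tr (L.diag X) = L.diag X := by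
  rw [tr, diag, ← L.push_swap, ← L.push_comp]
  have : lift (𝟙 X) (𝟙 X) ≫ lift (snd X X) (fst X X) = lift (𝟙 X) (𝟙 X) := by ext <;> simp
  rw [this]

theorem comp_diag {X Y : C} (u : L.R (X ⊗ Y)) : L.comp u (L.diag Y) = u := by
  rw [← L.tr_tr (L.comp u (L.diag Y)), L.tr_comp, L.tr_diag, L.diag_comp, L.tr_tr]

theorem tr_mul {X Y : C} (u v : L.R (X ⊗ Y)) : L.tr (u * v) = L.tr u * L.tr v := by
  simp only [tr, map_mul]

theorem deg_tr {X Y : C} (u : L.R (X ⊗ Y)) : L.deg (Y ⊗ X) (L.tr u) = L.deg (X ⊗ Y) u := by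
  rw [tr, ← L.push_swap, L.deg_push]

theorem deg_comp_mul {X Y Z : C} (u : L.R (X ⊗ Y)) (v : L.R (Y ⊗ Z)) (w : L.R (X ⊗ Z)) :
    L.deg _ (L.comp u v * w) = L.deg ((X ⊗ Y) ⊗ Z) (L.pull (fst X Y ▷ Z) w *
      (L.pull (fst (X ⊗ Y) Z) u * L.pull (snd X Y ▷ Z) v)) := by
  rw [mul_comm, L.comp_eq, ← L.projection, L.deg_push]

theorem deg_comp {X Y Z : C} (u : L.R (X ⊗ Y)) (v : L.R (Y ⊗ Z)) (w : L.R (X ⊗ Z)) :
    L.deg _ (L.comp u v * w) = L.deg _ (v * L.comp (L.tr u) w) := by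
  rw [mul_comm v, deg_comp_mul, deg_comp_mul]
  set χ := lift (lift (fst (X ⊗ Y) Z ≫ snd X Y) (fst (X ⊗ Y) Z ≫ fst X Y)) (snd (X ⊗ Y) Z) with hχ
  set χ' := lift (lift (fst (Y ⊗ X) Z ≫ snd Y X) (fst (Y ⊗ X) Z ≫ fst Y X)) (snd (Y ⊗ X) Z)
    with hχ'
  have h1 : χ ≫ χ' = 𝟙 _ := by ext <;> simp [hχ, hχ']
  have h2 : χ' ≫ χ = 𝟙 _ := by ext <;> simp [hχ, hχ']
  rw [L.deg_of_iso χ χ' h1 h2 (L.pull (fst Y X ▷ Z) v * _), map_mul (L.pull _), map_mul (L.pull _),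
    tr, ← L.pull_comp, ← L.pull_comp, ← L.pull_comp, ← L.pull_comp]
  have a1 : χ ≫ fst Y X ▷ Z = snd X Y ▷ Z := by ext <;> simp [hχ]
  have a2 : (χ ≫ fst (Y ⊗ X) Z) ≫ lift (snd Y X) (fst Y X) = fst (X ⊗ Y) Z := by
    ext <;> simp [hχ]
  have a3 : χ ≫ snd Y X ▷ Z = fst X Y ▷ Z := by ext <;> simp [hχ]
  rw [a1, a2, a3]
  congr 1
  ring

theorem deg_comp' {X Y Z : C} (u : L.R (X ⊗ Y)) (v : L.R (Y ⊗ Z)) (w : L.R (X ⊗ Z)) :
    L.deg _ (L.comp u v * w) = L.deg _ (u * L.comp w (L.tr v)) := by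
  have h := L.deg_comp (L.tr v) (L.tr u) (L.tr w)
  rw [← L.tr_comp, ← L.tr_mul, L.deg_tr, L.tr_tr, ← L.deg_tr (L.tr u * _), L.tr_mul, L.tr_tr,
    L.tr_comp, L.tr_tr] at h
  exact h

theorem deg_act {X Y : C} (g : L.R (X ⊗ Y)) (x : L.R X) (y : L.R Y) :
    L.deg _ (L.act g x * y) = L.deg _ (x * L.act (L.tr g) y) := by
  rw [act, act, ← L.projection, mul_comm _ y, ← L.projection, L.deg_push, L.deg_push, ← L.deg_tr,
    L.tr_mul, L.tr_mul]
  have a1 : L.tr (L.pull (snd X Y) y) = L.pull (fst Y X) y := by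
    rw [tr, ← L.pull_comp]; simp
  have a2 : L.tr (L.pull (fst X Y) x) = L.pull (snd Y X) x := by
    rw [tr, ← L.pull_comp]; simp
  rw [a1, a2]
  congr 1
  ring

/-- moving a correspondence `p` on `Z × Z` from one factor to the other -/
theorem push_snd_comp {Z X : C} (p : L.R (Z ⊗ Z)) (g a : L.R (Z ⊗ X)) :
    L.push (snd Z X) (a * L.comp p g) = L.push (snd Z X) (L.comp (L.tr p) a * g) := by
  rw [mul_comm _ g, L.comp_eq, L.comp_eq, ← L.projection, ← L.projection, ← L.push_comp,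
    ← L.push_comp]
  set χ := lift (lift (fst (Z ⊗ Z) X ≫ snd Z Z) (fst (Z ⊗ Z) X ≫ fst Z Z)) (snd (Z ⊗ Z) X) with hχ
  have h1 : χ ≫ χ = 𝟙 _ := by ext <;> simp [hχ]
  rw [L.push_of_iso χ χ h1 h1 (fst Z Z ▷ X ≫ snd Z X) (L.pull (fst Z Z ▷ X) g * _),
    map_mul (L.pull _), map_mul (L.pull _), tr, ← L.pull_comp, ← L.pull_comp, ← L.pull_comp,
    ← L.pull_comp]
  have a0 : χ ≫ fst Z Z ▷ X ≫ snd Z X = fst Z Z ▷ X ≫ snd Z X := by simp [hχ]
  have a1 : χ ≫ fst Z Z ▷ X = snd Z Z ▷ X := by ext <;> simp [hχ]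
  have a2 : (χ ≫ fst (Z ⊗ Z) X) ≫ lift (snd Z Z) (fst Z Z) = fst (Z ⊗ Z) X := by
    ext <;> simp [hχ]
  have a3 : χ ≫ snd Z Z ▷ X = fst Z Z ▷ X := by ext <;> simp [hχ]
  rw [a0, a1, a2, a3]
  congr 1
  ring

/-- the graph of `f` acts by push-forward -/
theorem act_graph {X Y : C} (f : X ⟶ Y) (x : L.R X) :
    L.act (L.push (lift (𝟙 X) f) 1) x = L.push f x := by
  rw [act, ← L.projection, ← L.push_comp, ← L.pull_comp, mul_one, lift_fst, lift_snd, L.pull_id]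

theorem act_diag {X : C} (x : L.R X) : L.act (L.diag X) x = x := by
  rw [diag, L.act_graph, L.push_id]

theorem act_ext {X Y : C} (b : L.R X) (a : L.R Y) (x : L.R X) :
    L.act (L.pull (fst X Y) b * L.pull (snd X Y) a) x = L.deg X (x * b) • a := by
  have : L.pull (fst X Y) x * (L.pull (fst X Y) b * L.pull (snd X Y) a) =
      L.pull (snd X Y) a * L.pull (fst X Y) (x * b) := by rw [map_mul]; ring
  rw [act, this, L.projection, L.push_snd_pull_fst, Algebra.algebraMap_eq_smul_one,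
    mul_smul_comm, mul_one]

/-- pulling back a correspondence along `q × X` -/
theorem act_pull {W Z X : C} (q : W ⟶ Z) (g : L.R (Z ⊗ X)) (u y : L.R W) :
    L.act (L.pull (q ▷ X) g * L.pull (fst W X) u) y = L.act g (L.push q (y * u)) := by
  have h1 : L.pull (fst W X) y * (L.pull (q ▷ X) g * L.pull (fst W X) u) =
      L.pull (q ▷ X) g * L.pull (fst W X) (y * u) := by rw [map_mul (L.pull (fst W X))]; ring
  have h2 : snd W X = q ▷ X ≫ snd Z X := by simp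
  rw [act, act, h1, h2, L.push_comp, L.projection, L.base_change, mul_comm]

theorem gr_mul' {X : C} {p q : ℤ} {x : L.R X} (hx : L.gr X p x = x) (y : L.R X) :
    L.gr X (p + q) (x * y) = x * L.gr X q y := by
  rw [← hx, L.gr_mul]

theorem gr_one (X : C) : L.gr X 0 1 = 1 := by
  have h1 : ∀ p q : ℤ, L.gr X (p + q) (L.gr X p 1) = L.gr X p 1 * L.gr X q 1 := by
    intro p q
    have := L.gr_mul X p q 1 1
    rwa [mul_one] at this
  have h2 : ∀ p : ℤ, p ≠ 0 → L.gr X p 1 = 0 := by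
    intro p hp
    have h3 := h1 p 0
    rw [L.gr_gr, add_zero, if_pos rfl] at h3
    have h4 := h1 0 p
    rw [L.gr_gr, if_neg (by simpa using hp)] at h4
    rw [h3, mul_comm, ← h4]
  have h3 := L.gr_sum X 1
  by_cases h0 : (0 : ℤ) ∈ Finset.Icc 0 (dim X)
  · rw [Finset.sum_eq_single (0 : ℤ) (fun p _ hp => h2 p hp) (fun h => absurd h0 h)] at h3
    exact h3.symm
  · have : (1 : L.R X) = 0 := by
      rw [h3]
      exact Finset.sum_eq_zero fun p hp => h2 p (by rintro rfl; exact h0 hp)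
    rw [this, map_zero]

theorem gr_act {X Y : C} {m : ℤ} {g : L.R (X ⊗ Y)} (hg : L.gr _ m g = g) (p : ℤ) (x : L.R X)
    (hd : dim (X ⊗ Y) = dim X + dim Y) :
    L.gr Y (m + p - dim X) (L.act g x) = L.act g (L.gr X p x) := by
  have h1 : m + p - dim X = m + p + dim Y - dim (X ⊗ Y) := by rw [hd]; ring
  rw [act, act, h1, L.gr_push, mul_comm, L.gr_mul' hg, L.gr_pull, mul_comm]

theorem gr_comp {X Y Z : C} {m : ℤ} {u : L.R (X ⊗ Y)} (hu : L.gr _ m u = u) (n : ℤ)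
    (v : L.R (Y ⊗ Z)) (hd : dim ((X ⊗ Y) ⊗ Z) = dim X + dim Y + dim Z)
    (hd' : dim (X ⊗ Z) = dim X + dim Z) :
    L.gr (X ⊗ Z) (m + n - dim Y) (L.comp u v) = L.comp u (L.gr (Y ⊗ Z) n v) := by
  have h1 : m + n - dim Y = m + n + dim (X ⊗ Z) - dim ((X ⊗ Y) ⊗ Z) := by rw [hd, hd']; ring
  rw [comp, comp, h1, L.gr_push, L.gr_mul' (by rw [L.gr_pull, hu]), L.gr_pull]

theorem gr_comp' {X Y Z : C} {n : ℤ} {v : L.R (Y ⊗ Z)} (hv : L.gr _ n v = v) (m : ℤ)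
    (u : L.R (X ⊗ Y)) (hd : dim ((X ⊗ Y) ⊗ Z) = dim X + dim Y + dim Z)
    (hd' : dim (X ⊗ Z) = dim X + dim Z) :
    L.gr (X ⊗ Z) (m + n - dim Y) (L.comp u v) = L.comp (L.gr (X ⊗ Y) m u) v := by
  have h1 : m + n - dim Y = n + m + dim (X ⊗ Z) - dim ((X ⊗ Y) ⊗ Z) := by rw [hd, hd']; ring
  rw [comp, comp, h1, L.gr_push, mul_comm, L.gr_mul' (by rw [L.gr_pull, hv]), L.gr_pull, mul_comm]

theorem gr_tr {X Y : C} (m : ℤ) (u : L.R (X ⊗ Y)) : L.gr _ m (L.tr u) = L.tr (L.gr _ m u) := by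
  simp only [tr, L.gr_pull]

theorem gr_diag (X : C) (hd : dim (X ⊗ X) = dim X + dim X) :
    L.gr _ (dim X) (L.diag X) = L.diag X := by
  have h1 : dim X = 0 + dim (X ⊗ X) - dim X := by rw [hd]; ring
  conv_lhs => rw [h1]
  rw [diag, L.gr_push, L.gr_one]

theorem act_add {X Y : C} (g g' : L.R (X ⊗ Y)) (x : L.R X) :
    L.act (g + g') x = L.act g x + L.act g' x := by
  simp only [act, mul_add, map_add]

theorem act_sub {X Y : C} (g g' : L.R (X ⊗ Y)) (x : L.R X) :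
    L.act (g - g') x = L.act g x - L.act g' x := by
  simp only [act, mul_sub, map_sub]

theorem act_smul {X Y : C} (r : ℚ) (g : L.R (X ⊗ Y)) (x : L.R X) :
    L.act (r • g) x = r • L.act g x := by
  simp only [act, map_smul, mul_smul_comm]

theorem act_add_right {X Y : C} (g : L.R (X ⊗ Y)) (x x' : L.R X) :
    L.act g (x + x') = L.act g x + L.act g x' := by
  simp only [act, map_add, add_mul]

theorem act_sub_right {X Y : C} (g : L.R (X ⊗ Y)) (x x' : L.R X) :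
    L.act g (x - x') = L.act g x - L.act g x' := by
  simp only [act, map_sub, sub_mul]

theorem act_smul_right {X Y : C} (g : L.R (X ⊗ Y)) (r : ℚ) (x : L.R X) :
    L.act g (r • x) = r • L.act g x := by
  simp only [act, map_smul, smul_mul_assoc]

theorem act_zero {X Y : C} (g : L.R (X ⊗ Y)) : L.act g 0 = 0 := by
  simp only [act, map_zero, zero_mul]

theorem zero_act {X Y : C} (x : L.R X) : L.act (0 : L.R (X ⊗ Y)) x = 0 := by
  simp only [act, map_zero, mul_zero]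

theorem act_sum_right {X Y : C} (g : L.R (X ⊗ Y)) {ι : Type*} (s : Finset ι) (x : ι → L.R X) :
    L.act g (∑ i ∈ s, x i) = ∑ i ∈ s, L.act g (x i) := by
  simp only [act, map_sum, Finset.sum_mul]

theorem act_sum {X Y : C} {ι : Type*} (s : Finset ι) (g : ι → L.R (X ⊗ Y)) (x : L.R X) :
    L.act (∑ i ∈ s, g i) x = ∑ i ∈ s, L.act (g i) x := by
  simp only [act, map_sum, Finset.mul_sum]

theorem comp_sub {X Y Z : C} (u : L.R (X ⊗ Y)) (v v' : L.R (Y ⊗ Z)) :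
    L.comp u (v - v') = L.comp u v - L.comp u v' := by
  simp only [comp, map_sub, mul_sub]

theorem sub_comp {X Y Z : C} (u u' : L.R (X ⊗ Y)) (v : L.R (Y ⊗ Z)) :
    L.comp (u - u') v = L.comp u v - L.comp u' v := by
  simp only [comp, map_sub, sub_mul]

theorem comp_add {X Y Z : C} (u : L.R (X ⊗ Y)) (v v' : L.R (Y ⊗ Z)) :
    L.comp u (v + v') = L.comp u v + L.comp u v' := by
  simp only [comp, map_add, mul_add]

theorem add_comp {X Y Z : C} (u u' : L.R (X ⊗ Y)) (v : L.R (Y ⊗ Z)) :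
    L.comp (u + u') v = L.comp u v + L.comp u' v := by
  simp only [comp, map_add, add_mul]

theorem smul_comp {X Y Z : C} (r : ℚ) (u : L.R (X ⊗ Y)) (v : L.R (Y ⊗ Z)) :
    L.comp (r • u) v = r • L.comp u v := by
  simp only [comp, map_smul, smul_mul_assoc]

theorem comp_smul {X Y Z : C} (r : ℚ) (u : L.R (X ⊗ Y)) (v : L.R (Y ⊗ Z)) :
    L.comp u (r • v) = r • L.comp u v := by
  simp only [comp, map_smul, mul_smul_comm]

theorem zero_comp {X Y Z : C} (v : L.R (Y ⊗ Z)) : L.comp (0 : L.R (X ⊗ Y)) v = 0 := by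
  simp only [comp, map_zero, zero_mul]

theorem comp_zero {X Y Z : C} (u : L.R (X ⊗ Y)) : L.comp u (0 : L.R (Y ⊗ Z)) = 0 := by
  simp only [comp, map_zero, mul_zero]

theorem sum_comp {X Y Z : C} {ι : Type*} (s : Finset ι) (u : ι → L.R (X ⊗ Y)) (v : L.R (Y ⊗ Z)) :
    L.comp (∑ i ∈ s, u i) v = ∑ i ∈ s, L.comp (u i) v := by
  simp only [comp, map_sum, Finset.sum_mul]

theorem comp_sum {X Y Z : C} {ι : Type*} (s : Finset ι) (u : L.R (X ⊗ Y)) (v : ι → L.R (Y ⊗ Z)) :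
    L.comp u (∑ i ∈ s, v i) = ∑ i ∈ s, L.comp u (v i) := by
  simp only [comp, map_sum, Finset.mul_sum]

theorem tr_add {X Y : C} (u v : L.R (X ⊗ Y)) : L.tr (u + v) = L.tr u + L.tr v := by
  simp only [tr, map_add]

theorem tr_sub {X Y : C} (u v : L.R (X ⊗ Y)) : L.tr (u - v) = L.tr u - L.tr v := by
  simp only [tr, map_sub]

theorem tr_smul {X Y : C} (r : ℚ) (u : L.R (X ⊗ Y)) : L.tr (r • u) = r • L.tr u := by
  simp only [tr, map_smul]

end Level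

namespace LevelHom

variable {L L' : Level.{u, v, w} dim} (F : LevelHom L L')

theorem map_deg {X : C} (x : L.R X) : L'.deg X (F.map X x) = L.deg X x := by
  apply L'.point.1
  rw [L'.algebraMap_deg, ← F.map_push, ← L.algebraMap_deg, AlgHom.commutes]

theorem map_act {X Y : C} (g : L.R (X ⊗ Y)) (x : L.R X) :
    F.map Y (L.act g x) = L'.act (F.map _ g) (F.map X x) := by
  simp only [Level.act, F.map_push, map_mul, F.map_pull]

theorem map_comp {X Y Z : C} (u : L.R (X ⊗ Y)) (v : L.R (Y ⊗ Z)) :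
    F.map _ (L.comp u v) = L'.comp (F.map _ u) (F.map _ v) := by
  simp only [Level.comp, F.map_push, map_mul, F.map_pull]

theorem map_tr {X Y : C} (u : L.R (X ⊗ Y)) : F.map _ (L.tr u) = L'.tr (F.map _ u) := by
  simp only [Level.tr, F.map_pull]

theorem map_diag (X : C) : F.map _ (L.diag X) = L'.diag X := by
  simp only [Level.diag, F.map_push, map_one]

end LevelHom

end Pool.Agent.H79.CT
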