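import Mathlib

/-!
# Chow groups, absolute Hodge cohomology and Betti cohomology of smooth projective varieties

Everything is over the algebraic numbers and with rational coefficients. `C` is the category of
irreducible smooth projective varieties; it has finite products.
-/

open CategoryTheory MonoidalCategory CartesianMonoidalCategory

universe u v w

namespace Pool.Agent.H79.CT

variable {C : Type u} [Category.{v} C] [CartesianMonoidalCategory C]

/-- A theory with products, pull-backs and push-forwards on irreducible smooth projective varieties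
(all codimensions together). `gr X p` is the projection to the part of codimension `p`. -/
structure Level (dim : C → ℤ) where
  R : C → Type w
  [ring : ∀ X, CommRing (R X)]
  [alg : ∀ X, Algebra ℚ (R X)]
  pull : ∀ {X Y : C}, (X ⟶ Y) → (R Y →ₐ[ℚ] R X)
  push : ∀ {X Y : C}, (X ⟶ Y) → (R X →ₗ[ℚ] R Y)
  gr : ∀ X : C, ℤ → (R X →ₗ[ℚ] R X)
  pull_id : ∀ (X : C) (x : R X), pull (𝟙 X) x = x
  pull_comp : ∀ {X Y Z : C} (f : X ⟶ Y) (g : Y ⟶ Z) (z : R Z), pull (f ≫ g) z = pull f (pull g z)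
  push_id : ∀ (X : C) (x : R X), push (𝟙 X) x = x
  push_comp : ∀ {X Y Z : C} (f : X ⟶ Y) (g : Y ⟶ Z) (x : R X), push (f ≫ g) x = push g (push f x)
  /-- isomorphisms have degree 1 -/
  push_one : ∀ {X Y : C} (f : X ⟶ Y), IsIso f → push f 1 = 1
  /-- the projection formula -/
  projection : ∀ {X Y : C} (f : X ⟶ Y) (x : R X) (y : R Y), push f (pull f y * x) = y * push f x
  /-- flat base change along the projection `X × Y ⟶ X` -/
  base_change : ∀ {X' X : C} (f : X' ⟶ X) (Y : C) (x : R X'),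
    pull (fst X Y) (push f x) = push (f ▷ Y) (pull (fst X' Y) x)
  /-- the ring of a point is the field of rational numbers -/
  point : Function.Bijective (algebraMap ℚ (R (𝟙_ C)))
  gr_sum : ∀ (X : C) (x : R X), x = ∑ p ∈ Finset.Icc 0 (dim X), gr X p x
  gr_gr : ∀ (X : C) (p q : ℤ) (x : R X), gr X p (gr X q x) = if p = q then gr X q x else 0
  gr_mul : ∀ (X : C) (p q : ℤ) (x y : R X), gr X (p + q) (gr X p x * y) = gr X p x * gr X q y
  gr_pull : ∀ {X Y : C} (f : X ⟶ Y) (p : ℤ) (y : R Y), gr X p (pull f y) = pull f (gr Y p y)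
  gr_push : ∀ {X Y : C} (f : X ⟶ Y) (p : ℤ) (x : R X),
    gr Y (p + dim Y - dim X) (push f x) = push f (gr X p x)

attribute [instance] Level.ring Level.alg

namespace Level

variable {dim : C → ℤ} (L : Level.{u, v, w} dim)

/-- the degree of a zero-cycle (push-forward to the point) -/
noncomputable def deg (X : C) : L.R X →ₗ[ℚ] ℚ :=
  (LinearEquiv.ofBijective (Algebra.linearMap ℚ (L.R (𝟙_ C))) L.point).symm.toLinearMap ∘ₗ
    L.push (toUnit X)

/-- the action of a correspondence `g` on `X × Y`: `x ↦ p₂_* (p₁^* x · g)` -/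
noncomputable def act {X Y : C} (g : L.R (X ⊗ Y)) (x : L.R X) : L.R Y :=
  L.push (snd X Y) (L.pull (fst X Y) x * g)

/-- the composite of `u` on `X × Y` and `v` on `Y × Z` (first `u`, then `v`) -/
noncomputable def comp {X Y Z : C} (u : L.R (X ⊗ Y)) (v : L.R (Y ⊗ Z)) : L.R (X ⊗ Z) :=
  L.push (lift (fst (X ⊗ Y) Z ≫ fst X Y) (snd (X ⊗ Y) Z))
    (L.pull (fst (X ⊗ Y) Z) u * L.pull (lift (fst (X ⊗ Y) Z ≫ snd X Y) (snd (X ⊗ Y) Z)) v)

/-- the transpose -/
noncomputable def tr {X Y : C} (u : L.R (X ⊗ Y)) : L.R (Y ⊗ X) :=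
  L.pull (lift (snd Y X) (fst Y X)) u

/-- the class of the diagonal -/
noncomputable def diag (X : C) : L.R (X ⊗ X) := L.push (lift (𝟙 X) (𝟙 X)) 1

end Level

/-- A morphism of theories. -/
structure LevelHom {dim : C → ℤ} (L L' : Level.{u, v, w} dim) where
  map : ∀ X : C, L.R X →ₐ[ℚ] L'.R X
  map_pull : ∀ {X Y : C} (f : X ⟶ Y) (y : L.R Y), map X (L.pull f y) = L'.pull f (map Y y)
  map_push : ∀ {X Y : C} (f : X ⟶ Y) (x : L.R X), map Y (L.push f x) = L'.push f (map X x)
  map_gr : ∀ (X : C) (p : ℤ) (x : L.R X), map X (L.gr X p x) = L'.gr X p (map X x)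

/-- The Kuenneth decomposition of the cohomology of `Z × X`: `kn Z X a` is the projection to the
part `H^a(Z) ⊗ H^*(X)`. -/
structure Kunneth {dim : C → ℤ} (H : Level.{u, v, w} dim) where
  kn : ∀ Z X : C, ℤ → (H.R (Z ⊗ X) →ₗ[ℚ] H.R (Z ⊗ X))
  kn_sum : ∀ (Z X : C) (w : H.R (Z ⊗ X)), w = ∑ a ∈ Finset.Icc 0 (2 * dim Z), kn Z X a w
  kn_kn : ∀ (Z X : C) (a b : ℤ) (w : H.R (Z ⊗ X)),
    kn Z X a (kn Z X b w) = if a = b then kn Z X b w else 0
  kn_mul : ∀ (Z X : C) (a b : ℤ) (w v : H.R (Z ⊗ X)),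
    kn Z X (a + b) (kn Z X a w * v) = kn Z X a w * kn Z X b v
  kn_gr : ∀ (Z X : C) (a p : ℤ) (w : H.R (Z ⊗ X)),
    kn Z X a (H.gr (Z ⊗ X) p w) = H.gr (Z ⊗ X) p (kn Z X a w)
  kn_comp : ∀ (Z Y X : C) (a : ℤ) (u : H.R (Z ⊗ Y)) (w : H.R (Y ⊗ X)),
    kn Z X a (H.comp u w) = H.comp (kn Z Y a u) w
  /-- a class of codimension `m` on `Z × X` of degree `a` in `Z` is of degree `2m - a` in `X` -/
  kn_tr : ∀ (Z X : C) (a m : ℤ) (w : H.R (Z ⊗ X)),
    H.tr (kn Z X a (H.gr (Z ⊗ X) m w)) = kn X Z (2 * m - a) (H.tr (H.gr (Z ⊗ X) m w))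
  /-- the part `H^0(Z) ⊗ H^*(X)` is given by restriction to `{z} × X` -/
  kn_zero : ∀ (Z X : C) (z : 𝟙_ C ⟶ Z) (w : H.R (Z ⊗ X)),
    kn Z X 0 w = H.pull (snd Z X) (H.pull (lift (toUnit X ≫ z) (𝟙 X)) w)

/-- A finite family of morphisms `f a : Z a ⟶ X`. -/
structure Family (X : C) where
  n : ℕ
  Z : Fin n → C
  f : ∀ a, Z a ⟶ X

/-- Smooth quasi-projective varieties, given as the complement `V` in `X` of the union of the images
of a finite family of morphisms (Hironaka): Chow groups `A V`, absolute Hodge cohomology `D V`. -/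
structure OpenSubvarieties {dim : C → ℤ} {A D : Level.{u, v, w} dim} (c : LevelHom A D) where
  A' : ∀ {X : C}, Family X → Type w
  D' : ∀ {X : C}, Family X → Type w
  [gA : ∀ {X : C} (F : Family X), AddCommGroup (A' F)]
  [gD : ∀ {X : C} (F : Family X), AddCommGroup (D' F)]
  /-- the cycle class map of `V`; on homologically trivial classes it is the Abel-Jacobi map -/
  cl : ∀ {X : C} (F : Family X), A' F →+ D' F
  resA : ∀ {X : C} (F : Family X), A.R X →+ A' F
  resD : ∀ {X : C} (F : Family X), D.R X →+ D' F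
  cl_res : ∀ {X : C} (F : Family X) (x : A.R X), cl F (resA F x) = resD F (c.map X x)
  resA_surj : ∀ {X : C} (F : Family X), Function.Surjective (resA F)
  /-- localization -/
  resA_ker : ∀ {X : C} (F : Family X) (x : A.R X),
    resA F x = 0 ↔ ∃ y : ∀ a, A.R (F.Z a), x = ∑ a, A.push (F.f a) (y a)
  resD_ker : ∀ {X : C} (F : Family X) (x : D.R X),
    resD F x = 0 ↔ ∃ y : ∀ a, D.R (F.Z a), x = ∑ a, D.push (F.f a) (y a)

attribute [instance] OpenSubvarieties.gA OpenSubvarieties.gD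

/-- Chow groups `A`, absolute Hodge cohomology `D = ⊕ H^{2p}_D(X, Q(p))` and Betti cohomology
`H = ⊕ H^{2p}(X, Q(p))` of irreducible smooth projective varieties. -/
structure CycleTheory (C : Type u) [Category.{v} C] [CartesianMonoidalCategory C] where
  dim : C → ℤ
  dim_tensor : ∀ X Y, dim (X ⊗ Y) = dim X + dim Y
  dim_nonneg : ∀ X, 0 ≤ dim X
  /-- every variety has a rational point -/
  pt : ∀ Z : C, Nonempty (𝟙_ C ⟶ Z)
  A : Level.{u, v, w} dim
  D : Level.{u, v, w} dim
  H : Level.{u, v, w} dim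
  c : LevelHom A D
  h : LevelHom D H
  /-- the products of two elements of the intermediate Jacobians (the kernel of `h`) are zero -/
  sq_zero : ∀ (X : C) (x y : D.R X), h.map X x = 0 → h.map X y = 0 → x * y = 0
  finH : ∀ X : C, FiniteDimensional ℚ (H.R X)
  /-- Poincare duality -/
  duality : ∀ (X : C) (x : H.R X), (∀ y, H.deg X (x * y) = 0) → x = 0
  /-- polarizable Hodge structures are semisimple; the Hodge classes are the image of `h` -/
  pseudo : ∀ (Z X : C) (g : D.R (Z ⊗ X)), ∃ s : D.R (X ⊗ Z),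
    h.map (Z ⊗ X) (D.comp (D.comp g s) g) = h.map (Z ⊗ X) g
  K : Kunneth H
  /-- the hard Lefschetz theorem: with `κ a` the part in `H^a(Z) ⊗ H^{2d-a}(Z)` of the diagonal (the
  projector to `H^{2d-a}(Z)`) and `L` the correspondence of multiplication by the power `d - i` of
  the class `l` of an ample divisor, `L` is an isomorphism from `H^i` to `H^{2d-i}` with inverse `Λ` -/
  lefschetz : ∀ Z : C, ∃ l : A.R Z, A.gr Z 1 l = l ∧ ∀ i : ℕ, (i : ℤ) ≤ dim Z → ∀ j : ℕ,
    (i : ℤ) + j = dim Z → ∃ Λ : H.R (Z ⊗ Z), H.gr (Z ⊗ Z) i Λ = Λ ∧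
    H.comp (H.comp (K.kn Z Z (2 * dim Z - i) (H.diag Z))
      (h.map _ (c.map _ (A.push (lift (𝟙 Z) (𝟙 Z)) (l ^ j))))) Λ
        = K.kn Z Z (2 * dim Z - i) (H.diag Z) ∧
    H.comp (H.comp (K.kn Z Z i (H.diag Z)) Λ)
      (h.map _ (c.map _ (A.push (lift (𝟙 Z) (𝟙 Z)) (l ^ j)))) = K.kn Z Z i (H.diag Z)
  /-- products of Grassmannians -/
  cell : C → Prop
  cell_bij : ∀ G, cell G → Function.Bijective (fun x : A.R G => h.map G (c.map G x)) ∧
    Function.Injective (h.map G)
  /-- the Kuenneth formula for `X × G` -/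
  cell_ext : ∀ X G, cell G → ∀ x : D.R (X ⊗ G),
    (∀ y : A.R G, D.push (fst X G) (x * D.pull (snd X G) (c.map G y)) = 0) → x = 0
  cell_lin : ∀ X G, cell G → ∀ φ : A.R G →ₗ[ℚ] A.R X, ∃ x : A.R (X ⊗ G),
    ∀ y : A.R G, A.push (fst X G) (x * A.pull (snd X G) y) = φ y
  /-- Vector bundles: a class `g` of codimension `m` with `g^2 = 0` is a rational multiple of
  `ch E₁ - ch E₂`, and finitely many classes `b` are rational combinations of classes `ch F_j`,
  where `E₁`, `E₂` and `F_j` are generated by sections, so pulled back from a product `G` of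
  Grassmannians along `g₁` or `g₂`, with the same `F_j`; every class on `G` is a polynomial in the
  components of the Chern characters of the tautological bundles. -/
  bundles : ∀ (Y : C) (m : ℤ) (g : A.R Y), A.gr Y m g = g → g * g = 0 → ∀ b : Finset (A.R Y),
    ∃ (G : C) (_ : cell G) (g₁ g₂ : Y ⟶ G),
      (∃ y, A.pull g₁ y - A.pull g₂ y = g) ∧
      (∀ x ∈ b, ∃ y, A.pull g₁ y = x ∧ A.pull g₂ y = x) ∧
      ∀ y, ∃ q, A.pull g₁ y - A.pull g₂ y = g * q
  /-- `P = P^p × P^q` with the classes `e`, `f` of codimensions `p`, `q` pulled back from points -/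
  cells : ∀ p q : ℕ, 0 < p → 0 < q → ∃ (P : C) (e f : A.R P), A.gr P p e = e ∧ A.gr P q f = f ∧
    A.deg P (e * f) = 1 ∧ e * e = 0 ∧ f * f = 0
  O : OpenSubvarieties c

variable (T : CycleTheory.{u, v, w} C)

/-- Q1: the Abel-Jacobi maps of all smooth quasi-projective varieties are injective. -/
def Q1 : Prop := ∀ (X : C) (F : Family X), Function.Injective (T.O.cl F)

/-- The Bloch-Beilinson conjecture for smooth projective varieties. -/
def BlochBeilinson : Prop := ∀ X : C, Function.Injective (T.c.map X)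

/-- The standard conjecture D: numerically trivial classes are homologically trivial. -/
def ConjectureD : Prop := ∀ (Z : C) (a : T.A.R Z), (∀ b, T.A.deg Z (a * b) = 0) →
  T.h.map Z (T.c.map Z a) = 0

/-- Hodge classes orthogonal to all algebraic classes are invisible: a homologically trivial
correspondence sends no such class to a nonzero class of a cycle. -/
def Invisible : Prop := ∀ (Z X : C) (m : ℤ) (g : T.A.R (Z ⊗ X)), T.A.gr (Z ⊗ X) m g = g →
  T.h.map (Z ⊗ X) (T.c.map (Z ⊗ X) g) = 0 →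
  ∀ y : T.D.R Z, (∀ a : T.A.R Z, T.D.deg Z (y * T.c.map Z a) = 0) →
  ∀ x : T.A.R X, T.D.act (T.c.map (Z ⊗ X) g) y = T.c.map X x → T.c.map X x = 0

/-- Strictness: a cycle class that is the image of a class in absolute Hodge cohomology under a
correspondence is the image of a cycle. -/
def Strict : Prop := ∀ (Z X : C) (m : ℤ) (g : T.A.R (Z ⊗ X)), T.A.gr (Z ⊗ X) m g = g →
  ∀ (y : T.D.R Z) (x : T.A.R X), T.c.map X x = T.D.act (T.c.map (Z ⊗ X) g) y →
  ∃ z : T.A.R Z, x = T.A.act g z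

end Pool.Agent.H79.CT
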